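import Pool.Agent.N375.AV.L2
import Pool.Agent.Results.MP_e9eb55_nt.AlmostAllN

/-!
# The diagonal Moebius-twisted Elliott-Halberstam bound around the values of additive functions

Let `F = f_1 ∘ ⋯ ∘ f_k` be a composition of functions dominated by the largest prime factor: additive functions `f` with
`f (q^j) ≤ C q^j` at the prime powers and with different values at different large primes (for example the sum of the prime
factors), the largest prime factor, Kempner's function. Let `α > 0`. For all `m ≤ N` but `N / (log N)^U` (every `U`) ALL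
integers `n` with `|n - α F(m)| ≤ (log F(m))^W` lie outside of one fixed exceptional set, and off this set the diagonal
Moebius-twisted Elliott-Halberstam bound holds at all levels `n^θ`, `θ < 1`, and even at the levels `n exp (- (log n)^c)`.
The starting theorem `AlmostAllN` of this problem shows that the exceptional set has a saving of every power of the logarithm;
the values of `F` are taken with large multiplicities and `F(m)` is in general much smaller than `m`, so this is not a
consequence of the count alone.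

Proof. The preimage under a function dominated by the largest prime factor of a set with a saving of every power of the logarithm
has such a saving (`Pool/Agent/N375/AV`): write `m = u p`, `p` the largest prime factor of `m`, larger than `exp √(log N)`
for most `m`, and count the `p` for every `u`.
-/

set_option autoImplicit false

namespace Pool.Agent.Results.MP_e9eb55_nt.AdditiveValues

open Finset
open Pool.Agent.N733.TG (Expanding expanding_pow)
open Pool.Agent.N375.AV (PD comp log_windows logThin_of pd_additive pd_largest pd_kempner)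
open Pool.Agent.Results.MP_e9eb55_nt.AlmostAllN (disc g₁ g₂)

/-- **dEH around the values of additive functions and of their compositions.** There is a set `E` such that: (1) for every
composition `F = f_1 ∘ ⋯ ∘ f_k` of functions dominated by the largest prime factor, every `G` with steps `≥ a > 0` and growth
at most `v`, all `W`, `U` and all large `N`, for all `m ≤ N` but `N / (log N)^U` NO `n` with
`|n - G (F m)| ≤ (1 + log F(m))^W` is in `E`; (2), (3) for `n` off `E` the bounds `D_g(n; θ) ≤ n (log n)^(-A)`, `θ < 1`, and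
the same bounds at the levels `n exp (- (log n)^c)` hold for both weights `g`, for all `n ≥ n₀` where `n₀` only depends on
`θ`, `A` (on `c`, `A`). (4) Examples of `f_i` and `G`. -/
theorem result : ∃ E : Set ℕ,
    (∀ fs : List (ℕ → ℕ), (∀ f ∈ fs, PD f) → ∀ G : ℕ → ℝ, Expanding G 1 → ∀ W U : ℕ, ∃ N₀ : ℕ, ∀ N : ℕ, N₀ ≤ N →
      ({m : ℕ | 1 ≤ m ∧ m ≤ N ∧ ∃ n ∈ E, |(n : ℝ) - G (comp fs m)| ≤ (1 + Real.log (comp fs m)) ^ W}.ncard : ℝ) ≤
        N / Real.log N ^ U) ∧
    (∀ θ : ℝ, 0 < θ → θ < 1 → ∀ A : ℝ, 0 < A → ∃ n₀ : ℕ, ∀ n : ℕ, n₀ ≤ n → n ∉ E →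
      ∀ g : ℕ → ℝ, (g = g₁ ∨ g = g₂) → disc g n ((n : ℝ) ^ θ) ≤ n * Real.log n ^ (-A)) ∧
    (∀ c : ℝ, 0 < c → ∀ A : ℝ, 0 < A → ∃ n₀ : ℕ, ∀ n : ℕ, n₀ ≤ n → n ∉ E →
      ∀ g : ℕ → ℝ, (g = g₁ ∨ g = g₂) → disc g n (n * Real.exp (-(Real.log n) ^ c)) ≤ n * Real.log n ^ (-A)) ∧
    (∀ f : ℕ → ℕ, (∀ a b : ℕ, Nat.Coprime a b → f (a * b) = f a + f b) →
      (∃ C : ℕ, ∀ q j : ℕ, q.Prime → 1 ≤ j → f (q ^ j) ≤ C * q ^ j) →
      (∃ P : ℕ, ∀ p q : ℕ, p.Prime → q.Prime → P ≤ p → P ≤ q → f p = f q → p = q) → PD f) ∧
    (PD (fun n => n.primeFactors.sup id) ∧ PD (fun n => sInf {k : ℕ | n ∣ k.factorial})) ∧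
    ∀ α : ℝ, 0 < α → Expanding (fun v => α * (v : ℝ) ^ (1 : ℝ)) 1 := by
  obtain ⟨E, h1, h2, h3⟩ := Pool.Agent.Results.MP_e9eb55_nt.AlmostAllN.result
  exact ⟨E, fun fs hfs G hG W U => log_windows (logThin_of (fun B => by
      obtain ⟨X₀, hX₀⟩ := h1 B
      refine ⟨X₀, fun X hX => le_trans (le_of_eq ?_) (hX₀ X hX)⟩
      congr!)) fs hfs hG W U, h2, h3, fun f a1 a2 a3 => pd_additive a1 a2 a3, ⟨pd_largest, pd_kempner⟩,
    fun α hα => expanding_pow hα le_rfl⟩

end Pool.Agent.Results.MP_e9eb55_nt.AdditiveValues
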