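import Pool.Agent.N282.EH.Fin1

/-!
# The diagonal Moebius-twisted Elliott–Halberstam conjecture for random signs, at every level

Let `s_p` be independent random signs and `f(n) = μ(n) ∏_{p | n} s_p`, the standard random model of `μ`. Almost surely
`D_f(N; θ) ≤ C N^((1+θ)/2+ε)` and `D_{f log}(N; θ) ≤ C N^((1+θ)/2+ε)` for ALL `N`, for every `θ < 1` and `ε > 0`: the
statement dEH`(N^θ)` for every level `θ < 1`, with a power saving. The von Mangoldt function is not changed. There is no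
hypothesis.

Proof. `n ≡ N mod q` means that `q` divides `m = N - n`, so the inner sum is `∑_{k < N/q} Λ(N - qk) f(qk)`. A high moment
of it over the signs counts tuples `(k_i)` with square product, at most `(N/q)^(r+κ)` of them, and `r` is taken large
enough for a union bound over all `q < N` and all `N`.
-/

set_option autoImplicit false

open MeasureTheory Filter Topology

namespace Pool.Agent.Results.MP_e9eb55_nt.RandomSigns

/-- `f(n) = μ(n) ∏_{p | n} s_p`. -/
noncomputable def f (s : ℕ → ℝ) (n : ℕ) : ℝ :=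
  ((ArithmeticFunction.moebius n : ℤ) : ℝ) * ∏ p ∈ n.primeFactors, s p

/-- `D_g(N; θ)` of the problem file: the sum over the `q ≤ N^θ` prime to `N` of
`|∑_{n < N, n ≡ N mod q} Λ(n) g(N - n) - (1/φ(q)) ∑_{n < N} Λ(n) g(N - n)|`. -/
noncomputable def D (g : ℕ → ℝ) (N : ℕ) (θ : ℝ) : ℝ :=
  ∑ q ∈ (Finset.Icc 1 ⌊(N : ℝ) ^ θ⌋₊).filter (fun q => q.Coprime N),
    |(∑ n ∈ (Finset.Icc 1 (N - 1)).filter (fun n => n ≡ N [MOD q]), ArithmeticFunction.vonMangoldt n * g (N - n)) -
      1 / (Nat.totient q : ℝ) * ∑ n ∈ Finset.Icc 1 (N - 1), ArithmeticFunction.vonMangoldt n * g (N - n)|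

/-- For independent random signs, almost surely: for all `0 < θ < 1` and `ε > 0` there is `C` such that for all `N ≥ 1`
both `D_f(N; θ)` and `D_{f log}(N; θ)` are at most `C N^((1+θ)/2+ε)`. -/
theorem result {Ω : Type} [MeasurableSpace Ω] (P : Measure Ω) [IsProbabilityMeasure P] (s : ℕ → Ω → ℝ)
    (hm : ∀ p, Measurable (s p)) (hs : ∀ p ω, s p ω = 1 ∨ s p ω = -1) (h0 : ∀ p, ∫ ω, s p ω ∂P = 0)
    (hi : ProbabilityTheory.iIndepFun s P) :
    ∀ᵐ ω ∂P, ∀ θ ε : ℝ, 0 < θ → θ < 1 → 0 < ε → ∃ C : ℝ, ∀ N : ℕ, 1 ≤ N →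
      D (f fun p => s p ω) N θ ≤ C * (N : ℝ) ^ ((1 + θ) / 2 + ε) ∧
      D (fun m => f (fun p => s p ω) m * Real.log m) N θ ≤ C * (N : ℝ) ^ ((1 + θ) / 2 + ε) := by
  filter_upwards [Pool.Agent.N282.EH.Fin1_main P s hm hs h0 hi] with ω hω
  intro θ ε hθ hθ1 hε
  obtain ⟨C, hC⟩ := hω θ ε hθ hθ1 hε
  refine ⟨C, fun N hN => ⟨?_, ?_⟩⟩
  · have h := hC N hN 0 (by norm_num)
    simp only [pow_zero, mul_one] at h
    convert h using 1
    unfold D Pool.Agent.N282.EH.DD Pool.Agent.N282.EH.EE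
    refine Finset.sum_congr ?_ fun q _ => ?_
    · exact Finset.filter_congr_decidable _ _ _
    · congr 3
  · have h := hC N hN 1 (by norm_num)
    simp only [pow_one] at h
    convert h using 1
    unfold D Pool.Agent.N282.EH.DD Pool.Agent.N282.EH.EE
    refine Finset.sum_congr ?_ fun q _ => ?_
    · exact Finset.filter_congr_decidable _ _ _
    · congr 3

end Pool.Agent.Results.MP_e9eb55_nt.RandomSigns
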