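import Pool.Agent.N282.EH.Fin2

/-!
# The diagonal Moebius-twisted Elliott–Halberstam sums twisted by almost any real character, at every level

For every `ε > 0` and every `A` there is `c > 0` such that for all but `O(D R₀^(-A))` of the odd `d ≤ D` the bounds
`D_g(N; θ) ≤ N^((1+θ)/2+ε)`, `g(m) = μ(m) (m/d)` and `g(m) = μ(m) (m/d) log m` (`(m/d)` is the Jacobi symbol), hold for
ALL `N` with `R₀ ≤ N ≤ D^c` and ALL `0 < θ < 1`: the bound dEH`(N^θ)` at every level `θ < 1`, with a power saving, for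
`μ` twisted by almost all real characters. There is no hypothesis.

Proof: high moments over `d` of the sums `∑_{k < N/q} Λ(N - qk) g(qk)`; the moments count the tuples `(k_i)` with square
product. Parts (the counting of tuples, sums of Jacobi symbols) were formalised by helper711 and helper346.
-/

set_option autoImplicit false

open MeasureTheory Filter Topology

namespace Pool.Agent.Results.MP_e9eb55_nt.RealCharacterTwists

/-- `f(n) = μ(n) (n/d)`, where `(n/d)` is the Jacobi symbol. -/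
noncomputable def f (d n : ℕ) : ℝ := ((ArithmeticFunction.moebius n : ℤ) : ℝ) * ((jacobiSym n d : ℤ) : ℝ)

/-- `D_g(N; θ)` of the problem file: the sum over the `q ≤ N^θ` prime to `N` of
`|∑_{n < N, n ≡ N mod q} Λ(n) g(N - n) - (1/φ(q)) ∑_{n < N} Λ(n) g(N - n)|`. -/
noncomputable def D (g : ℕ → ℝ) (N : ℕ) (θ : ℝ) : ℝ :=
  ∑ q ∈ (Finset.Icc 1 ⌊(N : ℝ) ^ θ⌋₊).filter (fun q => q.Coprime N),
    |(∑ n ∈ (Finset.Icc 1 (N - 1)).filter (fun n => n ≡ N [MOD q]), ArithmeticFunction.vonMangoldt n * g (N - n)) -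
      1 / (Nat.totient q : ℝ) * ∑ n ∈ Finset.Icc 1 (N - 1), ArithmeticFunction.vonMangoldt n * g (N - n)|

open Classical in
/-- For all `ε, A > 0` there are `c, C > 0` such that for all `Y` and `R₀ ≥ 1`, all but at most `C Y R₀^(-A)` of the odd
`d ≤ Y` satisfy: for all `N` with `R₀ ≤ N ≤ Y^c` and all `0 < θ < 1` both `D_f(N; θ)` and `D_{f log}(N; θ)` are at most
`N^((1+θ)/2+ε)`. -/
theorem result (ε A : ℝ) (hε : 0 < ε) (hA : 0 < A) : ∃ c C : ℝ, 0 < c ∧ 0 < C ∧ ∀ Y R₀ : ℕ, 1 ≤ R₀ →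
    (((Finset.Icc 1 Y).filter fun d => Odd d ∧ ¬ ∀ N : ℕ, R₀ ≤ N → (N : ℝ) ≤ (Y : ℝ) ^ c → ∀ θ : ℝ, 0 < θ → θ < 1 →
      D (f d) N θ ≤ (N : ℝ) ^ ((1 + θ) / 2 + ε) ∧
      D (fun m => f d m * Real.log m) N θ ≤ (N : ℝ) ^ ((1 + θ) / 2 + ε)).card : ℝ) ≤ C * Y * (R₀ : ℝ) ^ (-A) := by
  obtain ⟨c, C, hc, hC, h⟩ := Pool.Agent.N282.EH.Fin2_main ε A hε hA
  refine ⟨c, C, hc, hC, fun Y R₀ hR => ?_⟩
  refine le_trans ?_ (h Y R₀ hR)
  refine Nat.cast_le.2 (Finset.card_le_card fun d hd => ?_)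
  rw [Finset.mem_filter] at hd ⊢
  refine ⟨hd.1, hd.2.1, fun hgood => hd.2.2 ?_⟩
  intro N hN hNY θ hθ hθ1
  constructor
  · have h := hgood N hN hNY θ hθ hθ1 0 (by norm_num)
    simp only [pow_zero, mul_one] at h
    convert h using 1
    unfold D Pool.Agent.N282.EH.DD Pool.Agent.N282.EH.EE
    refine Finset.sum_congr ?_ fun q _ => ?_
    · exact Finset.filter_congr_decidable _ _ _
    · congr 3
  · have h := hgood N hN hNY θ hθ hθ1 1 (by norm_num)
    simp only [pow_one] at h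
    convert h using 1
    unfold D Pool.Agent.N282.EH.DD Pool.Agent.N282.EH.EE
    refine Finset.sum_congr ?_ fun q _ => ?_
    · exact Finset.filter_congr_decidable _ _ _
    · congr 3

end Pool.Agent.Results.MP_e9eb55_nt.RealCharacterTwists
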