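import Pool.Agent.Results.MP_e9eb55_nt.AlmostAllN
import Pool.Agent.N193.DE.F
import Pool.Agent.N193.PS.Def

/-!
The diagonal Moebius-twisted Elliott-Halberstam bound around almost all members of thin sets: residue classes with
small Fourier coefficients, and the integer parts of smoothly varying functions.
-/

set_option autoImplicit false

namespace Pool.Agent.Results.MP_e9eb55_nt.ThinSets

open Finset Filter Topology
open AlmostAllN (g₁ g₂ disc)
open Pool.Agent.N193.PS (SmoothlyVarying)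

/-- The diagonal bound holds for both weights, all the moduli up to `N ^ θ` and the saving `(log N) ^ A`, for ALL natural
numbers `N` with `|N - v| ≤ w`. -/
def Near (A : ℕ) (θ w v : ℝ) : Prop :=
  ∀ N : ℕ, |(N : ℝ) - v| ≤ w → ∀ g : ℕ → ℝ, (g = g₁ ∨ g = g₂) → disc g N ((N : ℝ) ^ θ) ≤ N / Real.log N ^ A

lemma not_near (A : ℕ) (θ w v : ℝ) (h : ¬ Near A θ w v) : ∃ N : ℕ, |(N : ℝ) - v| ≤ w ∧ Pool.Agent.N193.DE.Bad A θ N := by
  by_contra hcon
  apply h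
  intro N hN g hg
  by_contra hlt
  exact hcon ⟨N, hN, g, hg, not_le.1 hlt⟩

open Classical in
/-- **Theorem.** (1) Let `0 < θ < κ ≤ 1` and `A, W, B, K` be given and let `m` be large. Let `S` be any set of residues
modulo `m` with `|∑_{r ∈ S} e(a r / m)| ≤ m ^ (-κ) |S|` for `1 ≤ a < m`, and let `m ≤ c ≤ K m`. For all but
`|S| / (log m) ^ B` of the `|S|` integers `N` in `[c, c + m)` with `N mod m ∈ S`, the diagonal bound of level `θ` holds for
both weights and for ALL natural numbers `N'` with `|N' - N| ≤ (log m) ^ W`.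
(2) Let `f` be smoothly varying of a positive non-integral index (`f(t) = t ^ c (log t) ^ b`, ...). There is `κ > 0` such that
for `0 < θ < κ` and all `A, W, B, K`, for large `x` and `-f(x) / 4 ≤ c₀ ≤ K f(x)`: for all but `x / (log x) ^ B` of the
`n` in `(x, 2x]` the diagonal bound of level `θ` holds for both weights and for ALL natural numbers `N` with
`|N - (c₀ + ⌊f(n)⌋)| ≤ (log x) ^ W`. -/
theorem result :
    (∀ κ θ : ℝ, 0 < θ → θ < κ → κ ≤ 1 → ∀ A W B K : ℕ, ∃ m₀ : ℕ, ∀ m : ℕ, m₀ ≤ m → ∀ S : Finset ℕ, S ⊆ range m →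
      (∀ a : ℕ, 1 ≤ a → a < m →
        ‖∑ r ∈ S, Complex.exp (2 * Real.pi * Complex.I * (((a : ℝ) * r / m : ℝ) : ℂ))‖ ≤ (m : ℝ) ^ (-κ) * S.card) →
      ∀ c : ℕ, m ≤ c → c ≤ K * m →
      (((Ico c (c + m)).filter fun N : ℕ => N % m ∈ S ∧ ¬ Near A θ (Real.log m ^ W) N).card : ℝ) ≤
        S.card / Real.log m ^ B) ∧
    (∀ (c : ℝ) (f : ℝ → ℝ), 0 < c → (∀ m : ℕ, c ≠ m) → SmoothlyVarying c f → ∃ κ : ℝ, 0 < κ ∧
      ∀ θ : ℝ, 0 < θ → θ < κ → ∀ A W B K : ℕ, ∃ x₀ : ℕ, ∀ x : ℕ, x₀ ≤ x →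
      ∀ c₀ : ℤ, -(f x) / 4 ≤ c₀ → (c₀ : ℝ) ≤ K * f x →
      (((Ioc x (2 * x)).filter fun n : ℕ => ¬ Near A θ (Real.log x ^ W) ((c₀ : ℝ) + ⌊f n⌋₊)).card : ℝ) ≤
        x / Real.log x ^ B) := by
  refine ⟨fun κ θ hθ hθκ hκ A W B K => ?_, fun c f hc hn hf => ?_⟩
  · obtain ⟨m₀, hm₀⟩ := Pool.Agent.N193.DE.res_main κ θ hθ hθκ hκ A W B K
    refine ⟨m₀, fun m hm S hS hF c hc1 hc2 => ?_⟩
    refine le_trans ?_ (hm₀ m hm S hS hF c hc1 hc2)
    have hsub : ((Ico c (c + m)).filter fun N : ℕ => N % m ∈ S ∧ ¬ Near A θ (Real.log m ^ W) N) ⊆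
        ((Pool.Agent.N193.DE.mem m S c).filter fun N : ℕ => ∃ N' : ℕ, |(N' : ℝ) - (N : ℕ)| ≤ Real.log m ^ W ∧
          Pool.Agent.N193.DE.Bad A θ N') := by
      intro N hN
      rw [mem_filter] at hN ⊢
      obtain ⟨h1, h2, h3⟩ := hN
      exact ⟨mem_filter.2 ⟨h1, h2⟩, not_near A θ _ _ h3⟩
    exact_mod_cast card_le_card hsub
  · obtain ⟨κ, hκ0, _, hmain⟩ := Pool.Agent.N193.DE.sv_main (Pool.Agent.N193.PS.sv_of c hc hn f hf)
    refine ⟨κ, hκ0, fun θ hθ hθκ A W B K => ?_⟩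
    obtain ⟨x₀, hx₀⟩ := hmain θ hθ hθκ A W B K
    refine ⟨x₀, fun x hx c₀ hc1 hc2 => ?_⟩
    refine le_trans ?_ (hx₀ x hx c₀ (by simpa only [iteratedDeriv_zero] using hc1)
      (by simpa only [iteratedDeriv_zero] using hc2))
    have hsub : ((Ioc x (2 * x)).filter fun n : ℕ => ¬ Near A θ (Real.log x ^ W) ((c₀ : ℝ) + ⌊f n⌋₊)) ⊆
        ((Ioc x (2 * x)).filter fun n : ℕ => ∃ N : ℕ, |(N : ℝ) - (c₀ +
          Pool.Agent.N193.PS.val (fun m => iteratedDeriv m f) n)| ≤ Real.log x ^ W ∧ Pool.Agent.N193.DE.Bad A θ N) := by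
      intro n hn
      rw [mem_filter] at hn ⊢
      refine ⟨hn.1, ?_⟩
      have h1 := not_near A θ _ _ hn.2
      have h2 : Pool.Agent.N193.PS.val (fun m => iteratedDeriv m f) n = ⌊f n⌋₊ := by
        unfold Pool.Agent.N193.PS.val
        simp only [iteratedDeriv_zero]
      rwa [h2]
    exact_mod_cast card_le_card hsub

end Pool.Agent.Results.MP_e9eb55_nt.ThinSets
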